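import Pool.Agent.X165.SM5

/-!
# `g`-map graphs have clique cover degeneracy at most `8 g + 8`

Surfaces and embeddings are encoded by generalized maps (`SM.SMap`): finite sets of flags with
three fixed-point free involutions `a0, a1, a2`, `a0` and `a2` commuting with fixed-point free
product, acting transitively.  These are exactly the cellular embeddings of finite connected graphs
(loops and parallel edges allowed, at least one edge) in closed surfaces, orientable or not; the
vertices, edges and faces are the orbits of `⟨a1,a2⟩`, `⟨a0,a2⟩`, `⟨a0,a1⟩`.
-/

namespace Pool.Agent.Results.MP_33e66b_co.BoundedOnSurfaces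

open SM

/-- For every `g`, every `g`-map graph has clique cover degeneracy at most `8 g + 8`. -/
theorem result : ∀ (g : ℕ) (W : Type) (G : SimpleGraph W), IsMapGraph g G →
    CliqueCoverDegeneracyLE G (8 * g + 8) :=
  fun g _ G hG => main g G hG

end Pool.Agent.Results.MP_33e66b_co.BoundedOnSurfaces
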